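import Pool.Agent.Helper82K9.RQ.RQ4

/-!
# Elliott's conjecture for almost all linear forms and polynomials, for real multiplicative functions

From the starting files: the Matomaki-Radziwill theorem for completely multiplicative functions with values `1` and
`-1` in residue classes, uniformly in the function (`Pool.Agent.R512.U`), and the second moment over boxes of
polynomials (`Pool.Agent.TH892.RT`, for the Liouville function).
From this run: the exponential sums of all real multiplicative functions in almost all short windows, uniformly in the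
function (`Pool.Agent.Helper82K9.EL`).
From Mathlib: `DirichletCharacter ℂ q`: the Dirichlet characters of modulus `q`; `Finset.Icc 1 X`: the integers from
`1` to `X`; `Fintype.piFinset fun i => S i`: the functions `a` with `a i ∈ S i` for all `i`.
-/

set_option autoImplicit false

namespace Pool.Agent.Results.MP_0c9a68_nt.RandomPolynomials

open Finset

/-- The real multiplicative functions with `|f n| ≤ 1` (and `f 1 = 1`). -/
def RealMult (f : ℕ → ℝ) : Prop :=
  f 1 = 1 ∧ (∀ n, |f n| ≤ 1) ∧ ∀ m n : ℕ, 1 ≤ m → 1 ≤ n → Nat.Coprime m n → f (m * n) = f m * f n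

/-- The square of the pretentious distance: the sum of `(1 - Re (f p * conj (χ p))) / p` over the primes `p ≤ N`. -/
noncomputable def dist2 (f : ℕ → ℝ) {q : ℕ} (χ : DirichletCharacter ℂ q) (N : ℕ) : ℝ :=
  ∑ p ∈ (Icc 1 N).filter Nat.Prime, (1 - ((f p : ℂ) * (starRingEnd ℂ) (χ (p : ZMod q))).re) / (p : ℝ)

/-- At the scale `N` the function `f` is far from the real characters: the square of the distance to each real
character of modulus `q ≤ A` is at least `A`. -/
def Far (A N : ℕ) (f : ℕ → ℝ) : Prop :=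
  ∀ (q : ℕ) (χ : DirichletCharacter ℂ q), 1 ≤ q → q ≤ A → χ ^ 2 = 1 → (A : ℝ) ≤ dist2 f χ N

/-- The function `f` extended to the integers: `c f(-m)` for negative `m`, `0` at `0`. (`c = 0` is the extension by
zero, `c = 1` the even extension.) -/
noncomputable def ext (f : ℕ → ℝ) (c : ℂ) (m : ℤ) : ℂ :=
  if 0 < m then (f m.toNat : ℂ) else if m < 0 then c * (f (-m).toNat : ℂ) else 0

/-- The `k`-tuples of linear forms `a n + b`, given by the pairs `(a, b)`, with `1 ≤ a ≤ N` and `0 ≤ b ≤ N`. -/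
def forms (k N : ℕ) : Finset (Fin k → ℕ × ℕ) := Fintype.piFinset (fun _ => Icc 1 N ×ˢ range (N + 1))

/-- The `k`-tuples of polynomials of degree at most `d` with coefficients at most `H` in absolute value, given by
their coefficients. -/
noncomputable def polys (k d H : ℕ) : Finset (Fin k → Fin (d + 1) → ℤ) :=
  Fintype.piFinset (fun _ => Fintype.piFinset (fun _ => Icc (-(H : ℤ)) H))

/-- The value at `n` of the polynomial with the coefficients `a`. -/
def value {d : ℕ} (a : Fin (d + 1) → ℤ) (n : ℕ) : ℤ := ∑ j, a j * (n : ℤ) ^ (j : ℕ)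

open Classical in
/-- The number of the elements of `S` with the property `F`. -/
noncomputable def number {α : Type} (S : Finset α) (F : α → Prop) : ℝ := ((S.filter F).card : ℝ)

lemma number_le {α : Type} (S : Finset α) (F G : α → Prop) [DecidablePred G] (h : ∀ a ∈ S, F a → G a) :
    number S F ≤ ((S.filter G).card : ℝ) := by
  classical
  unfold number
  exact Nat.cast_le.2 (card_le_card fun a ha => mem_filter.2 ⟨(mem_filter.1 ha).1, h a (mem_filter.1 ha).1 (mem_filter.1 ha).2⟩)

lemma far_of {A N : ℕ} {f : ℕ → ℝ} (h : Far A N f) : Pool.Agent.Helper82K9.EL.FarR A N f := by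
  intro q χ h1 h2 h3
  refine le_trans (h q χ h1 h2 h3) (le_of_eq ?_)
  unfold dist2 Pool.Agent.Helper82K9.EL.dstR
  refine sum_congr rfl fun p _ => ?_
  rw [Complex.re_ofReal_mul, Complex.re_ofReal_mul, Complex.conj_re]

lemma mult_of {f : ℕ → ℝ} (h : RealMult f) : Pool.Agent.Helper82K9.EL.RMul f := ⟨h.1, h.2.1, h.2.2⟩

lemma ext_eq (f : ℕ → ℝ) (c : ℂ) : ext f c = Pool.Agent.Helper82K9.RQ.sg (fun n => (f n : ℂ)) c := rfl

/-- Let `k` be the number of the further factors and `ε > 0`.

* (condition) If the real multiplicative function `f` satisfies `D(f, χ; N) → ∞` for all real characters `χ` (this is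
  a part of the condition (N) of the problem), then it is far from the real characters at all large scales `N`.
* (linear forms) There are `A` and `δ > 0` such that, whenever `A ≤ x ≤ δ N` and `f` is a real multiplicative function
  which is far from the real characters at the scale `N`, for all functions `g 1, ..., g k` and all weights `w` bounded
  by `1`, all but `ε (number)` of the `(k + 1)`-tuples of linear forms `a_i n + b_i`, `1 ≤ a_i ≤ N`, `0 ≤ b_i ≤ N`,
  satisfy `|∑ n ≤ y, w n * f (a_0 n + b_0) * g 1 (a_1 n + b_1) * ... * g k (a_k n + b_k)| ≤ ε x` for all `y ≤ x`.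
* (polynomials) For all `d ≥ 1` and `C` there are `A` and `δ > 0` such that, whenever `A ≤ x ≤ δ H` and `f` is a real
  multiplicative function which is far from the real characters at the scale `H`, the same holds for the
  `(k + 1)`-tuples of polynomials `P i` of degree at most `d` with coefficients at most `H`, to which arbitrary integers
  `G i n` are added, `|G 0 n| ≤ C H n ^ d` (so the boxes of the coefficients may have other centres, the polynomials
  may be monic of degree `d + 1`, and so on). -/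
theorem result (k : ℕ) (ε : ℝ) (hε : 0 < ε) :
    (∀ f : ℕ → ℝ, (∀ (q : ℕ) (χ : DirichletCharacter ℂ q), 1 ≤ q → χ ^ 2 = 1 →
        Filter.Tendsto (fun N : ℕ => dist2 f χ N) Filter.atTop Filter.atTop) →
      ∀ A : ℕ, ∃ N₀ : ℕ, ∀ N : ℕ, N₀ ≤ N → Far A N f) ∧
    (∃ (A : ℕ) (δ : ℝ), 0 < δ ∧ ∀ N x : ℕ, A ≤ x → (x : ℝ) ≤ δ * N → ∀ f : ℕ → ℝ, RealMult f → Far A N f →
      ∀ g : Fin k → ℕ → ℂ, (∀ i m, ‖g i m‖ ≤ 1) → ∀ w : ℕ → ℂ, (∀ n, ‖w n‖ ≤ 1) →
      number (forms (k + 1) N) (fun p => ¬ ∀ y ≤ x, ‖∑ n ∈ Icc 1 y, w n * (f ((p 0).1 * n + (p 0).2) : ℂ) *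
        ∏ i : Fin k, g i ((p i.succ).1 * n + (p i.succ).2)‖ ≤ ε * x) ≤ ε * (forms (k + 1) N).card) ∧
    ∀ d : ℕ, 1 ≤ d → ∀ C : ℝ, ∃ (A : ℕ) (δ : ℝ), 0 < δ ∧ ∀ H x : ℕ, A ≤ x → (x : ℝ) ≤ δ * H →
      ∀ f : ℕ → ℝ, RealMult f → Far A H f → ∀ c : ℂ, ‖c‖ ≤ 1 →
      ∀ g : Fin k → ℤ → ℂ, (∀ i m, ‖g i m‖ ≤ 1) → ∀ w : ℕ → ℂ, (∀ n, ‖w n‖ ≤ 1) →
      ∀ G : Fin (k + 1) → ℕ → ℤ, (∀ n, 1 ≤ n → n ≤ x → |(G 0 n : ℝ)| ≤ C * H * n ^ d) →
      number (polys (k + 1) d H) (fun P => ¬ ∀ y ≤ x, ‖∑ n ∈ Icc 1 y, w n * ext f c (value (P 0) n + G 0 n) *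
        ∏ i : Fin k, g i (value (P i.succ) n + G i.succ n)‖ ≤ ε * x) ≤ ε * (polys (k + 1) d H).card := by
  classical
  refine ⟨fun f hf A => ?_, ?_, fun d hd C => ?_⟩
  · have h1 : ∀ (j : ℕ) (χ : DirichletCharacter ℂ (j + 1)), ∃ N₀ : ℕ, χ ^ 2 = 1 → ∀ N : ℕ, N₀ ≤ N → (A : ℝ) ≤ dist2 f χ N := by
      intro j χ
      by_cases hχ : χ ^ 2 = 1
      · obtain ⟨N₀, h2⟩ := Filter.eventually_atTop.1 ((hf (j + 1) χ (by omega) hχ).eventually_ge_atTop (A : ℝ))
        exact ⟨N₀, fun _ => h2⟩
      · exact ⟨0, fun h => absurd h hχ⟩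
    choose N₀ hN₀ using h1
    refine ⟨∑ j ∈ range A, ∑ χ : DirichletCharacter ℂ (j + 1), N₀ j χ, fun N hN q χ h2 h3 h4 => ?_⟩
    obtain ⟨j, rfl⟩ : ∃ j, q = j + 1 := ⟨q - 1, by omega⟩
    refine hN₀ j χ h4 N (le_trans ?_ hN)
    have h5 := single_le_sum (f := fun χ => N₀ j χ) (fun _ _ => Nat.zero_le _) (mem_univ χ)
    have h6 := single_le_sum (f := fun j => ∑ χ : DirichletCharacter ℂ (j + 1), N₀ j χ) (fun _ _ => Nat.zero_le _)
      (mem_range.2 (by omega : j < A))
    exact h5.trans h6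
  · obtain ⟨A, δ, hδ, h⟩ := Pool.Agent.Helper82K9.RQ.forms k ε hε
    refine ⟨A, δ, hδ, fun N x hx hxN f hf hF g hg w hw => ?_⟩
    have h1 := h N x hx hxN f (mult_of hf) (far_of hF) 0 (by simp)
      (fun p n => w n * ∏ i : Fin k, g i ((p i.succ).1 * n + (p i.succ).2)) (fun p n => by
        rw [norm_mul, norm_prod]
        exact mul_le_one₀ (hw n) (prod_nonneg fun _ _ => norm_nonneg _) (prod_le_one (fun _ _ => norm_nonneg _) fun i _ => hg i _))
      (fun p v n => by simp only [Function.update_of_ne (Fin.succ_ne_zero _)])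
    refine (number_le _ _ _ fun p hp1 hp2 => ?_).trans h1
    simp only [not_forall, not_le] at hp2
    obtain ⟨y, hy, hp3⟩ := hp2
    refine ⟨y, hy, lt_of_lt_of_le hp3 (le_of_eq ?_)⟩
    congr 1
    refine sum_congr rfl fun n hn => ?_
    rw [mem_Icc] at hn
    have hp0 := (mem_product.1 ((Fintype.mem_piFinset.1 hp1) 0)).1
    rw [mem_Icc] at hp0
    have hpos : 0 < (p 0).1 * n + (p 0).2 := by
      have : 0 < (p 0).1 * n := Nat.mul_pos (by omega) (by omega)
      omega
    unfold Pool.Agent.Helper82K9.RQ.sg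
    rw [if_pos (by exact_mod_cast hpos), Int.toNat_natCast]
    ring
  · obtain ⟨A, δ, hδ, hδ1, h⟩ := Pool.Agent.Helper82K9.RQ.tuples k d hd C ε hε
    refine ⟨A, δ, hδ, fun H x hx hxH f hf hF c hc g hg w hw G hG => ?_⟩
    have h1 := h H x hx hxH f (mult_of hf) (far_of hF) c hc
      (fun P n => w n * ∏ i : Fin k, g i (value (P i.succ) n + G i.succ n)) (fun P n => by
        rw [norm_mul, norm_prod]
        exact mul_le_one₀ (hw n) (prod_nonneg fun _ _ => norm_nonneg _) (prod_le_one (fun _ _ => norm_nonneg _) fun i _ => hg i _))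
      (fun p v n => by simp only [Function.update_of_ne (Fin.succ_ne_zero _)])
      (G 0) hG
    refine (number_le _ _ _ fun P hP1 hP2 => ?_).trans h1
    simp only [not_forall, not_le] at hP2
    obtain ⟨y, hy, hP3⟩ := hP2
    refine ⟨y, hy, lt_of_lt_of_le hP3 (le_of_eq ?_)⟩
    congr 1
    refine sum_congr rfl fun n hn => ?_
    rw [ext_eq]
    have e : Pool.Agent.TH892.RT.pv (P 0) n = value (P 0) n := rfl
    rw [e]
    ring

end Pool.Agent.Results.MP_0c9a68_nt.RandomPolynomials
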