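import Pool.Agent.Helper82K9.PX.PX9
import Pool.Agent.Helper82K9.PX.PX10

/-!
# Elliott's conjecture for almost all linear forms and polynomials along arbitrary sequences

From the starting files: the Matomaki-Radziwill theorem for completely multiplicative functions with values `1` and
`-1` in residue classes, uniformly in the function (`Pool.Agent.R512.U`), some lemmas on boxes of polynomials
(`Pool.Agent.TH892.RT`) and the Brun-Titchmarsh inequality (`Pool.Agent.H692R2.USS`).
From this run: the exponential sums of all real multiplicative functions in almost all short windows, uniformly in the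
function (`Pool.Agent.Helper82K9.EL`).
From Mathlib: `DirichletCharacter ℂ q`: the Dirichlet characters of modulus `q`; `Finset.Icc 1 X`: the integers from
`1` to `X`; `Fintype.piFinset fun i => S i`: the functions `a` with `a i ∈ S i` for all `i`; `Nat.nth Nat.Prime n`: the
`n`-th prime, counted from `0`; `Polynomial ℤ`: the polynomials with integer coefficients.
-/

set_option autoImplicit false

namespace Pool.Agent.Results.MP_0c9a68_nt.SequenceArguments

open Finset

/-- The real multiplicative functions with `|f n| ≤ 1` (and `f 1 = 1`). -/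
def RealMult (f : ℕ → ℝ) : Prop :=
  f 1 = 1 ∧ (∀ n, |f n| ≤ 1) ∧ ∀ m n : ℕ, 1 ≤ m → 1 ≤ n → Nat.Coprime m n → f (m * n) = f m * f n

/-- The square of the pretentious distance: the sum of `(1 - Re (f p * conj (χ p))) / p` over the primes `p ≤ N`. -/
noncomputable def dist2 (f : ℕ → ℝ) {q : ℕ} (χ : DirichletCharacter ℂ q) (N : ℕ) : ℝ :=
  ∑ p ∈ (Icc 1 N).filter Nat.Prime, (1 - ((f p : ℂ) * (starRingEnd ℂ) (χ (p : ZMod q))).re) / (p : ℝ)

/-- At the scale `N` the function `f` is far from the real characters: the square of the distance to each real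
character of modulus `q ≤ A` is at least `A`. -/
def Far (A N : ℕ) (f : ℕ → ℝ) : Prop :=
  ∀ (q : ℕ) (χ : DirichletCharacter ℂ q), 1 ≤ q → q ≤ A → χ ^ 2 = 1 → (A : ℝ) ≤ dist2 f χ N

/-- The function `f` extended to the integers: `c f(-m)` for negative `m`, `0` at `0`. -/
noncomputable def ext (f : ℕ → ℝ) (c : ℂ) (m : ℤ) : ℂ :=
  if 0 < m then (f m.toNat : ℂ) else if m < 0 then c * (f (-m).toNat : ℂ) else 0

/-- The `k`-tuples of polynomials of degree at most `d` with coefficients at most `H` in absolute value, given by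
their coefficients. -/
noncomputable def polys (k d H : ℕ) : Finset (Fin k → Fin (d + 1) → ℤ) :=
  Fintype.piFinset (fun _ => Fintype.piFinset (fun _ => Icc (-(H : ℤ)) H))

/-- The value at `n` of the polynomial with the coefficients `a`. -/
def value {d : ℕ} (a : Fin (d + 1) → ℤ) (n : ℕ) : ℤ := ∑ j, a j * (n : ℤ) ^ (j : ℕ)

open Classical in
/-- The number of the elements of `S` with the property `F`. -/
noncomputable def number {α : Type} (S : Finset α) (F : α → Prop) : ℝ := ((S.filter F).card : ℝ)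

/-- No residue class to a modulus `D > F` contains more than `η M` of `s 1, ..., s M`. -/
def Spread (F : ℕ) (η : ℝ) (M : ℕ) (s : ℕ → ℕ) : Prop :=
  ∀ D : ℕ, F < D → ∀ r : ℕ, number (Icc 1 M) (fun m => s m % D = r) ≤ η * M

/-- The conclusion for the sequence `s 1, ..., s M` in `[1, x]`: for every height `H ≥ A x ^ 3`, every real
multiplicative function `f` which is far from the real characters at the scale `H`, extended to the negative integers
by `f(-m) = c f(m)`, all integers `G m` with `|G m| ≤ C H (s m) ^ d` and every function `Ψ` bounded by `1`, all but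
`ε (number)` of the `(k + 1)`-tuples `P 0, ..., P k` of integer polynomials of degree at most `d` with coefficients at
most `H` satisfy `|∑ m ≤ y, f(P 0 (s m) + G m) * Ψ(P 1, ..., P k; m)| ≤ ε M` for all `y ≤ M`. -/
def AlmostAll (k d : ℕ) (C ε : ℝ) (A M x : ℕ) (s : ℕ → ℕ) : Prop :=
  ∀ H : ℕ, A * x ^ 3 ≤ H → ∀ f : ℕ → ℝ, RealMult f → Far A H f → ∀ c : ℂ, ‖c‖ ≤ 1 →
    ∀ G : ℕ → ℤ, (∀ m ∈ Icc 1 M, |(G m : ℝ)| ≤ C * H * (s m : ℝ) ^ d) →
    ∀ Ψ : (Fin k → Fin (d + 1) → ℤ) → ℕ → ℂ, (∀ P m, ‖Ψ P m‖ ≤ 1) →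
    number (polys (k + 1) d H) (fun P => ¬ ∀ y ≤ M, ‖∑ m ∈ Icc 1 y, ext f c (value (P 0) (s m) + G m) *
      Ψ (fun i => P i.succ) m‖ ≤ ε * M) ≤ ε * (polys (k + 1) d H).card

/-- The `m`-th prime, `m ≥ 1`. -/
noncomputable def prime (m : ℕ) : ℕ := Nat.nth Nat.Prime (m - 1)

lemma number_le {α : Type} (S : Finset α) (F G : α → Prop) [DecidablePred G] (h : ∀ a ∈ S, F a → G a) :
    number S F ≤ ((S.filter G).card : ℝ) := by
  classical
  unfold number
  exact Nat.cast_le.2 (card_le_card fun a ha => mem_filter.2 ⟨(mem_filter.1 ha).1, h a (mem_filter.1 ha).1 (mem_filter.1 ha).2⟩)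

lemma le_number {α : Type} (S : Finset α) (F G : α → Prop) [DecidablePred G] (h : ∀ a ∈ S, G a → F a) :
    ((S.filter G).card : ℝ) ≤ number S F := by
  classical
  unfold number
  exact Nat.cast_le.2 (card_le_card fun a ha => mem_filter.2 ⟨(mem_filter.1 ha).1, h a (mem_filter.1 ha).1 (mem_filter.1 ha).2⟩)

lemma far_of {A N : ℕ} {f : ℕ → ℝ} (h : Far A N f) : Pool.Agent.Helper82K9.EL.FarR A N f := by
  intro q χ h1 h2 h3
  refine le_trans (h q χ h1 h2 h3) (le_of_eq ?_)
  unfold dist2 Pool.Agent.Helper82K9.EL.dstR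
  refine sum_congr rfl fun p _ => ?_
  rw [Complex.re_ofReal_mul, Complex.re_ofReal_mul, Complex.conj_re]

lemma mult_of {f : ℕ → ℝ} (h : RealMult f) : Pool.Agent.Helper82K9.EL.RMul f := ⟨h.1, h.2.1, h.2.2⟩

lemma ext_eq (f : ℕ → ℝ) (c : ℂ) : ext f c = Pool.Agent.Helper82K9.RQ.sg (fun n => (f n : ℂ)) c := rfl

lemma almost_mono {k d : ℕ} {C ε : ℝ} {A A' M x : ℕ} {s : ℕ → ℕ} (h : AlmostAll k d C ε A M x s) (hA : A ≤ A') :
    AlmostAll k d C ε A' M x s := by
  intro H hH f hf hF c hc G hG Ψ hΨ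
  refine h H (le_trans (Nat.mul_le_mul_right _ hA) hH) f hf (fun q χ h1 h2 h3 => ?_) c hc G hG Ψ hΨ
  exact le_trans (by exact_mod_cast hA) (hF q χ h1 (h2.trans hA) h3)

lemma spread_of {F : ℕ} {η : ℝ} {M : ℕ} {s : ℕ → ℕ} (h : Pool.Agent.Helper82K9.PX.Spr F η M s) : Spread F η M s := by
  intro D hD r
  exact (number_le (Icc 1 M) (fun m => s m % D = r) (fun m => s m % D = r) (fun _ _ h => h)).trans (h D hD r)

/-- Let `k ≥ 0`, `d ≥ 1` (for linear forms `d = 1`), let `C` be real and `ε > 0`.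

* (condition) If the real multiplicative function `f` satisfies `D(f, χ; N) → ∞` for all real characters `χ` (this is
  a part of the condition (N) of the problem), then it is far from the real characters at all large scales `N`.
* (sequences) There is `η > 0` such that for every `F` there is `A` such that the conclusion `AlmostAll` holds for all
  `M ≥ A`, all `x` and all sequences `s 1, ..., s M` in `[1, x]` such that no residue class to a modulus `D > F`
  contains more than `η M` of them.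
* (polynomials) For all `e ≥ 1` and `B` there is `A` such that the conclusion holds for all `M ≥ A`, all `x` and
  `s m = Q(m)` for every integer polynomial `Q` of degree `e` with leading coefficient at most `B` in absolute value
  and values in `[1, x]` on `{1, ..., M}`.
* (primes) There is `A` such that the conclusion holds for the first `M` primes, for all `M ≥ A`.
* (dense sequences) For every `B` there is `A` such that the conclusion holds for all `M ≥ A` and every sequence of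
  `M` distinct elements of `[1, B M]`. -/
theorem result (k d : ℕ) (hd : 1 ≤ d) (C ε : ℝ) (hε : 0 < ε) :
    (∀ f : ℕ → ℝ, (∀ (q : ℕ) (χ : DirichletCharacter ℂ q), 1 ≤ q → χ ^ 2 = 1 →
        Filter.Tendsto (fun N : ℕ => dist2 f χ N) Filter.atTop Filter.atTop) →
      ∀ A : ℕ, ∃ N₀ : ℕ, ∀ N : ℕ, N₀ ≤ N → Far A N f) ∧
    (∃ η : ℝ, 0 < η ∧ ∀ F : ℕ, ∃ A : ℕ, ∀ (M x : ℕ) (s : ℕ → ℕ), A ≤ M → (∀ m ∈ Icc 1 M, 1 ≤ s m ∧ s m ≤ x) →
      Spread F η M s → AlmostAll k d C ε A M x s) ∧
    (∀ e B : ℕ, 1 ≤ e → ∃ A : ℕ, ∀ M x : ℕ, A ≤ M → ∀ Q : Polynomial ℤ, Q.natDegree = e → |Q.leadingCoeff| ≤ B →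
      (∀ m ∈ Icc 1 M, 1 ≤ Q.eval (m : ℤ) ∧ Q.eval (m : ℤ) ≤ x) →
      AlmostAll k d C ε A M x (fun m => (Q.eval (m : ℤ)).toNat)) ∧
    (∃ A : ℕ, ∀ M : ℕ, A ≤ M → AlmostAll k d C ε A M (prime M) prime) ∧
    ∀ B : ℕ, ∃ A : ℕ, ∀ (M : ℕ) (s : ℕ → ℕ), A ≤ M → Set.InjOn s (Icc 1 M : Finset ℕ) →
      (∀ m ∈ Icc 1 M, 1 ≤ s m ∧ s m ≤ B * M) → AlmostAll k d C ε A M (B * M) s := by
  classical
  obtain ⟨η, hη, hgen⟩ := Pool.Agent.Helper82K9.PX.tuplesS k d hd C ε hε
  have gen : ∀ F : ℕ, ∃ A : ℕ, ∀ (M x : ℕ) (s : ℕ → ℕ), A ≤ M → (∀ m ∈ Icc 1 M, 1 ≤ s m ∧ s m ≤ x) →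
      Spread F η M s → AlmostAll k d C ε A M x s := by
    intro F
    obtain ⟨A, hA1, hA⟩ := hgen F
    refine ⟨A, fun M x s hAM hs hsp H hH f hf hF c hc G hG Ψ hΨ => ?_⟩
    have hM1 : 1 ≤ M := hA1.trans hAM
    have hx : 1 ≤ x := by
      have := hs 1 (mem_Icc.2 ⟨le_rfl, hM1⟩)
      omega
    have h1 := hA H x M hx hAM hH s hs (fun D hD r => (le_number _ _ _ (fun _ _ h => h)).trans (hsp D hD r)) f (mult_of hf) (far_of hF) c hc
      (fun P m => Ψ (fun i => P i.succ) m) (fun P m => hΨ _ m)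
      (fun P v m => by simp only [Function.update_of_ne (Fin.succ_ne_zero _)]) G hG
    refine (number_le _ _ _ fun P _ hP2 => ?_).trans h1
    simp only [not_forall, not_le] at hP2
    obtain ⟨y, hy, hP3⟩ := hP2
    refine ⟨y, hy, lt_of_lt_of_le hP3 (le_of_eq ?_)⟩
    congr 1
  refine ⟨fun f hf A => ?_, ⟨η, hη, gen⟩, fun e B he => ?_, ?_, fun B => ?_⟩
  · have h1 : ∀ (j : ℕ) (χ : DirichletCharacter ℂ (j + 1)), ∃ N₀ : ℕ, χ ^ 2 = 1 → ∀ N : ℕ, N₀ ≤ N → (A : ℝ) ≤ dist2 f χ N := by
      intro j χ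
      by_cases hχ : χ ^ 2 = 1
      · obtain ⟨N₀, h2⟩ := Filter.eventually_atTop.1 ((hf (j + 1) χ (by omega) hχ).eventually_ge_atTop (A : ℝ))
        exact ⟨N₀, fun _ => h2⟩
      · exact ⟨0, fun h => absurd h hχ⟩
    choose N₀ hN₀ using h1
    refine ⟨∑ j ∈ range A, ∑ χ : DirichletCharacter ℂ (j + 1), N₀ j χ, fun N hN q χ h2 h3 h4 => ?_⟩
    obtain ⟨j, rfl⟩ : ∃ j, q = j + 1 := ⟨q - 1, by omega⟩
    refine hN₀ j χ h4 N (le_trans ?_ hN)
    have h5 := single_le_sum (f := fun χ => N₀ j χ) (fun _ _ => Nat.zero_le _) (mem_univ χ)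
    have h6 := single_le_sum (f := fun j => ∑ χ : DirichletCharacter ℂ (j + 1), N₀ j χ) (fun _ _ => Nat.zero_le _)
      (mem_range.2 (by omega : j < A))
    exact h5.trans h6
  · obtain ⟨F, M₀, hF⟩ := Pool.Agent.Helper82K9.PX.poly_spr e he B η hη
    obtain ⟨A, hA⟩ := gen F
    refine ⟨max A M₀, fun M x hM Q hQ hQB hQx => ?_⟩
    refine almost_mono (hA M x _ ((le_max_left _ _).trans hM) (fun m hm => ?_) (spread_of ?_)) (le_max_left _ _)
    · have := hQx m hm
      constructor <;> omega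
    · refine hF M ((le_max_right _ _).trans hM) Q hQ hQB _ fun m hm => ?_
      have := hQx m hm
      exact Int.toNat_of_nonneg (by omega)
  · obtain ⟨F, M₀, hF⟩ := Pool.Agent.Helper82K9.PX.primes_spr η hη
    obtain ⟨A, hA⟩ := gen F
    refine ⟨max A M₀, fun M hM => ?_⟩
    refine almost_mono (hA M _ _ ((le_max_left _ _).trans hM) (fun m hm => ?_)
      (spread_of (hF M ((le_max_right _ _).trans hM)))) (le_max_left _ _)
    rw [mem_Icc] at hm
    exact ⟨(Pool.Agent.Helper82K9.PX.pr_prime m).one_le, Pool.Agent.Helper82K9.PX.pr_mono hm.2⟩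
  · obtain ⟨F, M₀, hF⟩ := Pool.Agent.Helper82K9.PX.dense B η hη
    obtain ⟨A, hA⟩ := gen F
    refine ⟨max A M₀, fun M s hM hinj hs => ?_⟩
    exact almost_mono (hA M _ s ((le_max_left _ _).trans hM) hs
      (spread_of (hF M ((le_max_right _ _).trans hM) s hs hinj))) (le_max_left _ _)

end Pool.Agent.Results.MP_0c9a68_nt.SequenceArguments
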