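import Pool.Agent.Helper82K9.EL.EL9
import Pool.Agent.Helper4.SP.HypC

/-!
# Elliott's conjecture for almost all shifts from smooth sequences, uniformly in the smooth function

The Matomaki-Radziwill theorem (starting files) for all real multiplicative functions and sparse families of shifts is
`Pool.Agent.Helper82K9.EL` (`MP_0c9a68_nt.SparseShifts`). New: the additive energies of high order of the sequences
`[φ(m)]`, and of the sets of the integers `m` for which the fractional part of `φ(m)` lies in a short interval, have the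
smallest possible order of magnitude, uniformly in the smooth function `φ` (`Pool.Agent.Helper4.SP`).
From Mathlib: `DirichletCharacter ℂ q`: the Dirichlet characters of modulus `q`; `Finset.Icc 1 X`: the integers from
`1` to `X`.
-/

set_option autoImplicit false

namespace Pool.Agent.Results.MP_0c9a68_nt.SmoothShifts

open Finset

/-- The real multiplicative functions with `|f n| ≤ 1` (and `f 1 = 1`). -/
def RealMult (f : ℕ → ℝ) : Prop :=
  f 1 = 1 ∧ (∀ n, |f n| ≤ 1) ∧ ∀ m n : ℕ, 1 ≤ m → 1 ≤ n → Nat.Coprime m n → f (m * n) = f m * f n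

/-- The square of the pretentious distance: the sum of `(1 - Re (f p * conj (χ p))) / p` over the primes `p ≤ N`. -/
noncomputable def dist2 (f : ℕ → ℝ) {q : ℕ} (χ : DirichletCharacter ℂ q) (N : ℕ) : ℝ :=
  ∑ p ∈ (Icc 1 N).filter Nat.Prime, (1 - ((f p : ℂ) * (starRingEnd ℂ) (χ (p : ZMod q))).re) / (p : ℝ)

/-- At the scale `N` the function `f` is far from the real characters: the square of the distance to each real
character of modulus `q ≤ A` is at least `A`. -/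
def Far (A N : ℕ) (f : ℕ → ℝ) : Prop :=
  ∀ (q : ℕ) (χ : DirichletCharacter ℂ q), 1 ≤ q → q ≤ A → χ ^ 2 = 1 → (A : ℝ) ≤ dist2 f χ N

/-- The function `f` extended by zero to the integers. -/
noncomputable def ext (f : ℕ → ℝ) (m : ℤ) : ℂ := if 1 ≤ m then (f m.toNat : ℂ) else 0

/-- The correlations of `f` and the weight `g` at the shift `s` are small:
`|∑ n ≤ X, g n * f (a n + b + s)| ≤ ε N` for all `X` with `a X ≤ B N`. -/
def SmallCorr (B N : ℕ) (ε : ℝ) (f : ℕ → ℝ) (g : ℕ → ℂ) (a : ℕ) (b s : ℤ) : Prop :=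
  ∀ X : ℕ, a * X ≤ B * N → ‖∑ n ∈ Icc 1 X, g n * ext f (a * n + b + s)‖ ≤ ε * N

open Classical in
/-- The number of the elements of `S` with the property `F`. -/
noncomputable def number (S : Finset ℕ) (F : ℕ → Prop) : ℝ := ((S.filter F).card : ℝ)

/-- The conclusion for the functions `f` which are far from the real characters at the scale `N`, for the weights `g`
bounded by `1` and the linear forms `a n + b` with `a ≥ 1`, `b ≤ B N` (`b` may be negative): the shifts `s m`, `m ∈ S`,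
have small correlations, with at most `ε * #S` exceptions. -/
def AlmostAll (A B N : ℕ) (ε : ℝ) (S : Finset ℕ) (s : ℕ → ℤ) : Prop :=
  ∀ f : ℕ → ℝ, RealMult f → Far A N f → ∀ (g : ℕ → ℂ), (∀ n, ‖g n‖ ≤ 1) → ∀ (a : ℕ) (b : ℤ), 1 ≤ a → b ≤ B * N →
    number S (fun m => ¬ SmallCorr B N ε f g a b (s m)) ≤ ε * S.card

/-- The smooth functions `φ 0`: here `φ j` is the derivative of order `j` of `φ 0` on `[M, 2 M + 1]` for
`0 ≤ j ≤ k + 2`; the number `M ^ (k + 1) |φ ^ (k + 1) (t)|` is between `F / C` and `F C`, and the derivative of order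
`k + 2` does not change its sign. -/
structure Phase (k : ℕ) (C F : ℝ) (M : ℕ) (φ : ℕ → ℝ → ℝ) : Prop where
  der : ∀ j ≤ k + 1, ∀ t ∈ Set.Icc (M : ℝ) (2 * M + 1), HasDerivAt (φ j) (φ (j + 1) t) t
  low : ∀ t ∈ Set.Icc (M : ℝ) (2 * M + 1), F ≤ (M : ℝ) ^ (k + 1) * |φ (k + 1) t| * C
  high : ∀ t ∈ Set.Icc (M : ℝ) (2 * M + 1), (M : ℝ) ^ (k + 1) * |φ (k + 1) t| ≤ F * C
  mono : (∀ t ∈ Set.Icc (M : ℝ) (2 * M + 1), φ (k + 2) t ≤ 0) ∨
    (∀ t ∈ Set.Icc (M : ℝ) (2 * M + 1), 0 ≤ φ (k + 2) t)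

lemma dist2_eq (f : ℕ → ℝ) {q : ℕ} (χ : DirichletCharacter ℂ q) (N : ℕ) :
    dist2 f χ N = Pool.Agent.Helper82K9.EL.dstR f χ N := by
  unfold dist2 Pool.Agent.Helper82K9.EL.dstR
  refine sum_congr rfl fun p _ => ?_
  rw [Complex.re_ofReal_mul, Complex.re_ofReal_mul, Complex.conj_re]

lemma far_of {A N : ℕ} {f : ℕ → ℝ} (h : Far A N f) : Pool.Agent.Helper82K9.EL.FarR A N f := by
  intro q χ h1 h2 h3
  rw [← dist2_eq]
  exact h q χ h1 h2 h3

lemma mult_of {f : ℕ → ℝ} (h : RealMult f) : Pool.Agent.Helper82K9.EL.RMul f := ⟨h.1, h.2.1, h.2.2⟩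

lemma number_eq (S : Finset ℕ) (F : ℕ → Prop) : number S F = Pool.Agent.TH823.MRS.nu S F := rfl

lemma Far.anti {A A' N : ℕ} {f : ℕ → ℝ} (h : Far A N f) (hA : A' ≤ A) : Far A' N f := by
  intro q χ h1 h2 h3
  refine le_trans ?_ (h q χ h1 (h2.trans hA) h3)
  exact_mod_cast hA

/-- from the energy of a family indexed by a finite set to the conclusion -/
lemma fam (B : ℕ) (ε : ℝ) (hε : 0 < ε) (p : ℕ) (D : ℝ) : ∃ A : ℕ, ∀ N H : ℕ, A ≤ H → H ≤ N →
    ∀ (S : Finset ℕ) (s : ℕ → ℤ), (∀ m ∈ S, |s m| ≤ H) →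
      (Pool.Agent.TH212.EH.En p (fun i : {n // n ∈ S} => s i.1) : ℝ) * H ≤ D * (S.card : ℝ) ^ (2 * p) →
      AlmostAll A B N ε S s := by
  classical
  obtain ⟨A, hA⟩ := Pool.Agent.Helper82K9.EL.famR B ε hε p D
  refine ⟨A, fun N H hH hHN S s hs hen f hf hF g hg a b ha hb => ?_⟩
  rcases S.eq_empty_or_nonempty with rfl | hne
  · simp [number]
  have : Nonempty {n // n ∈ S} := ⟨⟨hne.choose, hne.choose_spec⟩⟩
  obtain ⟨u, hinj, hsurj⟩ := Pool.Agent.TH212.EH.enum {n // n ∈ S}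
  rw [Fintype.card_coe] at hsurj
  have hen2 := Pool.Agent.TH212.EH.energy_enum p (fun i : {n // n ∈ S} => s i.1) u 0 hinj
  rw [Fintype.card_coe] at hen2
  have hen3 : ((Pool.Agent.H373R2.T7.energy p S.card (fun m => s (u m).1 - 0) : ℕ) : ℝ) * H ≤
      D * (S.card : ℝ) ^ (2 * p) := by
    refine le_trans ?_ hen
    gcongr
  have h1 := hA N (hH.trans hHN) f (mult_of hf) (far_of hF) H hH hHN S.card (fun m => s (u m).1 - 0)
    (fun m _ => by rw [sub_zero]; exact hs _ (u m).2) hen3 a b g ha hb hg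
  rw [number_eq]
  refine le_trans ?_ h1
  unfold Pool.Agent.TH823.MRS.nu
  apply Nat.cast_le.2
  have key : S.filter (fun m => ¬ SmallCorr B N ε f g a b (s m)) ⊆
      ((Icc 1 S.card).filter (fun m => ¬ Pool.Agent.Helper82K9.EL.Sm (fun n => (f n : ℂ))
        B N ε a b g (s (u m).1 - 0))).image (fun m => (u m).1) := by
    intro n hn
    rw [mem_filter] at hn
    obtain ⟨m, hm, hmn⟩ := hsurj ⟨n, hn.1⟩
    rw [mem_image]
    refine ⟨m, mem_filter.2 ⟨hm, ?_⟩, by rw [hmn]⟩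
    rw [hmn, sub_zero]
    exact hn.2
  refine le_trans (le_of_eq ?_) ((card_le_card key).trans (card_image_le.trans (le_of_eq ?_)))
  · congr
  · congr

/-- (condition) If the real multiplicative function `f` satisfies `D(f, χ; N) → ∞` for all real characters `χ` (this is a
part of the condition (N) of the problem), then it is far from the real characters at all large scales `N`.

Let `k ≥ 1`, `0 < δ ≤ 1`, `C ≥ 1`, an integer `B` and `ε > 0` be given. There is `A` such that the following holds for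
all `A ≤ H ≤ N` and all `M`, all real `F` and all smooth functions `φ` as above.

* (values) If `H ≤ C F` and `F ≤ M ^ (k + 1 - δ)`, then the conclusion holds for the shifts `c₀ + κ ⌊φ(m)⌋`, `m ∈ S`, for
  all sets `S` of at least `M / C` integers in `(M, 2 M]` and all integers `κ ≠ 0` and `c₀` for which these shifts are at
  most `H` in absolute value.
* (fractional parts) If `H ≤ C M` and `M ^ δ ≤ F ≤ M ^ (k + 1 - δ)`, then the conclusion holds for the shifts `c₀ + κ m`,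
  `m ∈ S`, for all intervals modulo 1 of length `lam ≥ M ^ (- δ / (k 2 ^ (k + 2)))`, with left endpoint `c`, for all sets
  `S` of at least `lam M / C` integers `m` in `(M, 2 M]` with `{φ(m) - c} ≤ lam` and for all integers `κ ≠ 0` and `c₀` for
  which these shifts are at most `H` in absolute value. -/
theorem result (k : ℕ) (hk : 1 ≤ k) (δ C : ℝ) (hδ : 0 < δ) (hδ1 : δ ≤ 1) (hC : 1 ≤ C) (B : ℕ) (ε : ℝ) (hε : 0 < ε) :
    (∀ f : ℕ → ℝ, (∀ (q : ℕ) (χ : DirichletCharacter ℂ q), 1 ≤ q → χ ^ 2 = 1 →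
        Filter.Tendsto (fun N : ℕ => dist2 f χ N) Filter.atTop Filter.atTop) →
      ∀ A : ℕ, ∃ N₀ : ℕ, ∀ N : ℕ, N₀ ≤ N → Far A N f) ∧
    ∃ A : ℕ, ∀ N H : ℕ, A ≤ H → H ≤ N → ∀ (M : ℕ) (F : ℝ) (φ : ℕ → ℝ → ℝ), Phase k C F M φ →
      (H ≤ C * F → F ≤ (M : ℝ) ^ ((k : ℝ) + 1 - δ) → ∀ S : Finset ℕ, S ⊆ Ioc M (2 * M) → (M : ℝ) ≤ C * S.card →
        ∀ κ c₀ : ℤ, κ ≠ 0 → (∀ m ∈ S, |c₀ + κ * ⌊φ 0 (m : ℝ)⌋| ≤ H) →
        AlmostAll A B N ε S (fun m => c₀ + κ * ⌊φ 0 (m : ℝ)⌋)) ∧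
      ((H : ℝ) ≤ C * M → (M : ℝ) ^ δ ≤ F → F ≤ (M : ℝ) ^ ((k : ℝ) + 1 - δ) →
        ∀ c lam : ℝ, (M : ℝ) ^ (-(δ / (k * 2 ^ (k + 2)))) ≤ lam → ∀ S : Finset ℕ, S ⊆ Ioc M (2 * M) →
        (∀ m ∈ S, Int.fract (φ 0 (m : ℝ) - c) ≤ lam) → lam * M ≤ C * S.card →
        ∀ κ c₀ : ℤ, κ ≠ 0 → (∀ m ∈ S, |c₀ + κ * (m : ℤ)| ≤ H) →
        AlmostAll A B N ε S (fun m => c₀ + κ * (m : ℤ))) := by
  classical
  constructor
  · intro f hf A
    have h1 : ∀ (j : ℕ) (χ : DirichletCharacter ℂ (j + 1)), ∃ N₀ : ℕ, χ ^ 2 = 1 → ∀ N : ℕ, N₀ ≤ N →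
        (A : ℝ) ≤ dist2 f χ N := by
      intro j χ
      by_cases hχ : χ ^ 2 = 1
      · obtain ⟨N₀, h2⟩ := Filter.eventually_atTop.1 ((hf (j + 1) χ (by omega) hχ).eventually_ge_atTop (A : ℝ))
        exact ⟨N₀, fun _ => h2⟩
      · exact ⟨0, fun h => absurd h hχ⟩
    choose N₀ hN₀ using h1
    refine ⟨∑ j ∈ range A, ∑ χ : DirichletCharacter ℂ (j + 1), N₀ j χ, fun N hN q χ h2 h3 h4 => ?_⟩
    obtain ⟨j, rfl⟩ : ∃ j, q = j + 1 := ⟨q - 1, by omega⟩
    refine hN₀ j χ h4 N (le_trans ?_ hN)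
    have h5 := single_le_sum (f := fun χ => N₀ j χ) (fun _ _ => Nat.zero_le _) (mem_univ χ)
    have h6 := single_le_sum (f := fun j => ∑ χ : DirichletCharacter ℂ (j + 1), N₀ j χ) (fun _ _ => Nat.zero_le _)
      (mem_range.2 (by omega : j < A))
    exact h5.trans h6
  obtain ⟨p1, D1, M1, hD1, hv⟩ := Pool.Agent.Helper4.SP.valE k hk δ hδ hδ1 C hC
  obtain ⟨p2, D2, M2, hD2, hf⟩ := Pool.Agent.Helper4.SP.fracE k hk δ hδ hδ1 C hC
  obtain ⟨A1, hA1⟩ := fam B ε hε p1 (C * D1)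
  obtain ⟨A2, hA2⟩ := fam B ε hε p2 (C * D2)
  obtain ⟨A3, hA3⟩ := exists_nat_ge (C * ((M1 : ℝ) + 1) ^ ((k : ℝ) + 1 - δ))
  obtain ⟨A4, hA4⟩ := exists_nat_ge (C * ((M2 : ℝ) + 1))
  have hexp : 0 ≤ (k : ℝ) + 1 - δ := by
    have : (1 : ℝ) ≤ k := by exact_mod_cast hk
    linarith
  refine ⟨A1 + A2 + (A3 + 1) + (A4 + 1), fun N H hH hHN M F φ hφ => ⟨?_, ?_⟩⟩
  · intro hHF hF2 S hS hSc κ c₀ hκ hs
    have hHR : ((A3 : ℝ) + 1) ≤ H := by exact_mod_cast (by omega : A3 + 1 ≤ H)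
    have hCF : C * ((M1 : ℝ) + 1) ^ ((k : ℝ) + 1 - δ) ≤ C * F := by linarith
    have hF3 : ((M1 : ℝ) + 1) ^ ((k : ℝ) + 1 - δ) ≤ F := le_of_mul_le_mul_left hCF (by linarith)
    have hF1 : 1 ≤ F := by
      refine le_trans ?_ hF3
      exact Real.one_le_rpow (by have : (0 : ℝ) ≤ M1 := Nat.cast_nonneg _; linarith) hexp
    have hM : M1 ≤ M := by
      by_contra hcon
      push Not at hcon
      have h1 : (M : ℝ) < (M1 : ℝ) + 1 := by
        have : (M : ℝ) < M1 := by exact_mod_cast hcon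
        linarith
      have hexp' : 0 < (k : ℝ) + 1 - δ := by
        have : (1 : ℝ) ≤ k := by exact_mod_cast hk
        linarith
      have h2 := Real.rpow_lt_rpow (Nat.cast_nonneg M) h1 hexp'
      linarith
    have hen := hv M hM F hF1 hF2 φ ⟨hφ.der, hφ.low, hφ.high, hφ.mono⟩ S hS hSc κ c₀ hκ
    have h3 := hA1 N H (by omega) hHN S (fun m => c₀ + κ * ⌊φ 0 (m : ℝ)⌋) hs (by
      calc (Pool.Agent.TH212.EH.En p1 (fun i : {n // n ∈ S} => c₀ + κ * ⌊φ 0 ((i.1 : ℕ) : ℝ)⌋) : ℝ) * H ≤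
          (Pool.Agent.TH212.EH.En p1 (fun i : {n // n ∈ S} => c₀ + κ * ⌊φ 0 ((i.1 : ℕ) : ℝ)⌋) : ℝ) * (C * F) := by
            gcongr
        _ = C * ((Pool.Agent.TH212.EH.En p1 (fun i : {n // n ∈ S} => c₀ + κ * ⌊φ 0 ((i.1 : ℕ) : ℝ)⌋) : ℝ) * F) := by
            ring
        _ ≤ C * (D1 * (S.card : ℝ) ^ (2 * p1)) := by gcongr
        _ = _ := by ring)
    exact fun f hf' hF => h3 f hf' (hF.anti (by omega))
  · intro hHM hF1 hF2 c lam hlam S hS hSI hSc κ c₀ hκ hs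
    have hHR : ((A4 : ℝ) + 1) ≤ H := by exact_mod_cast (by omega : A4 + 1 ≤ H)
    have hM : M2 ≤ M := by
      have h1 : C * ((M2 : ℝ) + 1) ≤ C * M := by linarith
      have h2 : (M2 : ℝ) + 1 ≤ M := le_of_mul_le_mul_left h1 (by linarith)
      exact_mod_cast (by linarith : (M2 : ℝ) ≤ M)
    have hen := hf M hM F hF1 hF2 φ ⟨hφ.der, hφ.low, hφ.high, hφ.mono⟩ c lam hlam S hS hSI hSc κ c₀ hκ
    have h3 := hA2 N H (by omega) hHN S (fun m => c₀ + κ * (m : ℤ)) hs (by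
      calc (Pool.Agent.TH212.EH.En p2 (fun i : {n // n ∈ S} => c₀ + κ * ((i.1 : ℕ) : ℤ)) : ℝ) * H ≤
          (Pool.Agent.TH212.EH.En p2 (fun i : {n // n ∈ S} => c₀ + κ * ((i.1 : ℕ) : ℤ)) : ℝ) * (C * M) := by
            gcongr
        _ = C * ((Pool.Agent.TH212.EH.En p2 (fun i : {n // n ∈ S} => c₀ + κ * ((i.1 : ℕ) : ℤ)) : ℝ) * M) := by
            ring
        _ ≤ C * (D2 * (S.card : ℝ) ^ (2 * p2)) := by gcongr
        _ = _ := by ring)
    exact fun f hf' hF => h3 f hf' (hF.anti (by omega))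

end Pool.Agent.Results.MP_0c9a68_nt.SmoothShifts
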