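import Pool.Agent.Helper82K9.EL.EL9

/-!
# Elliott's conjecture for almost all shifts in sparse families of short shifts, for real multiplicative functions

From the starting files: the Matomaki-Radziwill theorem for completely multiplicative functions with values `1` and
`-1` in residue classes, uniformly in the function (`Pool.Agent.R512.U`), the circle method in short windows and the
energy of the primes (`Pool.Agent.TH823.MRS`), the inverse theorem for Weyl sums (`Pool.Agent.H373R2`).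
New: the exponential sums of all real multiplicative functions in almost all short windows, uniformly in the function
(means of random completely multiplicative functions with values `1` and `-1`), and the sparse families of shifts.
From Mathlib: `DirichletCharacter ℂ q`: the Dirichlet characters of modulus `q`; `Finset.Icc 1 X`: the integers from
`1` to `X`; `Polynomial ℤ`: the polynomials with integer coefficients, `P.eval m`: the value at `m`.
-/

set_option autoImplicit false

namespace Pool.Agent.Results.MP_0c9a68_nt.SparseShifts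

open Finset

/-- The real multiplicative functions with `|f n| ≤ 1` (and `f 1 = 1`). -/
def RealMult (f : ℕ → ℝ) : Prop :=
  f 1 = 1 ∧ (∀ n, |f n| ≤ 1) ∧ ∀ m n : ℕ, 1 ≤ m → 1 ≤ n → Nat.Coprime m n → f (m * n) = f m * f n

/-- The square of the pretentious distance: the sum of `(1 - Re (f p * conj (χ p))) / p` over the primes `p ≤ N`. -/
noncomputable def dist2 (f : ℕ → ℝ) {q : ℕ} (χ : DirichletCharacter ℂ q) (N : ℕ) : ℝ :=
  ∑ p ∈ (Icc 1 N).filter Nat.Prime, (1 - ((f p : ℂ) * (starRingEnd ℂ) (χ (p : ZMod q))).re) / (p : ℝ)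

/-- At the scale `N` the function `f` is far from the real characters: the square of the distance to each real
character of modulus `q ≤ A` is at least `A`. -/
def Far (A N : ℕ) (f : ℕ → ℝ) : Prop :=
  ∀ (q : ℕ) (χ : DirichletCharacter ℂ q), 1 ≤ q → q ≤ A → χ ^ 2 = 1 → (A : ℝ) ≤ dist2 f χ N

/-- The function `f` extended by zero to the integers. -/
noncomputable def ext (f : ℕ → ℝ) (m : ℤ) : ℂ := if 1 ≤ m then (f m.toNat : ℂ) else 0

/-- The correlations of `f` and the weight `g` at the shift `s` are small: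
`|∑ n ≤ X, g n * f (a n + b + s)| ≤ ε N` for all `X` with `a X ≤ B N`. -/
def SmallCorr (B N : ℕ) (ε : ℝ) (f : ℕ → ℝ) (g : ℕ → ℂ) (a : ℕ) (b s : ℤ) : Prop :=
  ∀ X : ℕ, a * X ≤ B * N → ‖∑ n ∈ Icc 1 X, g n * ext f (a * n + b + s)‖ ≤ ε * N

open Classical in
/-- The number of the elements of `S` with the property `F`. -/
noncomputable def number (S : Finset ℕ) (F : ℕ → Prop) : ℝ := ((S.filter F).card : ℝ)

/-- The number of the solutions of `s (m 1) + ... + s (m h) = s (m' 1) + ... + s (m' h)` with all `m i`, `m' i` in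
`{1, ..., x}`. -/
def energy (h x : ℕ) (s : ℕ → ℤ) : ℕ :=
  (((Fintype.piFinset fun _ : Fin h => Icc 1 x) ×ˢ (Fintype.piFinset fun _ : Fin h => Icc 1 x)).filter
    (fun q => ∑ i, s (q.1 i) = ∑ i, s (q.2 i))).card

/-- The conclusion for the functions `f` which are far from the real characters at the scale `N`, for the weights `g`
bounded by `1` and the linear forms `a n + b` with `a ≥ 1`, `b ≤ B N` (`b` may be negative): the shifts `s m`, `m ∈ S`,
have small correlations, with at most `ε * #S` exceptions. -/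
def AlmostAll (A B N : ℕ) (ε : ℝ) (S : Finset ℕ) (s : ℕ → ℤ) : Prop :=
  ∀ f : ℕ → ℝ, RealMult f → Far A N f → ∀ (g : ℕ → ℂ), (∀ n, ‖g n‖ ≤ 1) → ∀ (a : ℕ) (b : ℤ), 1 ≤ a → b ≤ B * N →
    number S (fun m => ¬ SmallCorr B N ε f g a b (s m)) ≤ ε * S.card

lemma dist2_eq (f : ℕ → ℝ) {q : ℕ} (χ : DirichletCharacter ℂ q) (N : ℕ) :
    dist2 f χ N = Pool.Agent.Helper82K9.EL.dstR f χ N := by
  unfold dist2 Pool.Agent.Helper82K9.EL.dstR
  refine sum_congr rfl fun p _ => ?_
  rw [Complex.re_ofReal_mul, Complex.re_ofReal_mul, Complex.conj_re]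

lemma far_of {A N : ℕ} {f : ℕ → ℝ} (h : Far A N f) : Pool.Agent.Helper82K9.EL.FarR A N f := by
  intro q χ h1 h2 h3
  rw [← dist2_eq]
  exact h q χ h1 h2 h3

lemma mult_of {f : ℕ → ℝ} (h : RealMult f) : Pool.Agent.Helper82K9.EL.RMul f := ⟨h.1, h.2.1, h.2.2⟩

lemma number_eq (S : Finset ℕ) (F : ℕ → Prop) : number S F = Pool.Agent.TH823.MRS.nu S F := rfl

/-- Let `B` be an integer and `ε > 0`.

* (condition) If the real multiplicative function `f` satisfies `D(f, χ; N) → ∞` for all real characters `χ` (this is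
  a part of the condition (N) of the problem), then it is far from the real characters at all large scales `N`.
* (polynomials) For each degree `d ≥ 1` there is `A` such that for all `N ≥ A`, all `x ≥ A` with `x ^ d ≤ B N` and all
  integer polynomials `P` of degree `d`, with a leading coefficient at most `B` and values at most `B x ^ d` in absolute
  value on `{1, ..., x}`, the conclusion holds for the shifts `P(m)`, `m ≤ x`.
* (primes) There is `A` such that the conclusion holds for the prime shifts up to `H` for all `A ≤ H ≤ N`.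
* (families) For each `h` and `C` there is `A` such that the conclusion holds for all `A ≤ H ≤ N` and all the families
  `s 1, ..., s x` of integers in `[-H, H]` whose additive energy of order `h` is at most `C x ^ (2 h) / H`. -/
theorem result (B : ℕ) (ε : ℝ) (hε : 0 < ε) :
    (∀ f : ℕ → ℝ, (∀ (q : ℕ) (χ : DirichletCharacter ℂ q), 1 ≤ q → χ ^ 2 = 1 →
        Filter.Tendsto (fun N : ℕ => dist2 f χ N) Filter.atTop Filter.atTop) →
      ∀ A : ℕ, ∃ N₀ : ℕ, ∀ N : ℕ, N₀ ≤ N → Far A N f) ∧
    (∀ d : ℕ, 1 ≤ d → ∃ A : ℕ, ∀ N x : ℕ, A ≤ N → A ≤ x → x ^ d ≤ B * N → ∀ P : Polynomial ℤ, P.natDegree = d →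
      |P.leadingCoeff| ≤ B → (∀ m ∈ Icc 1 x, |P.eval (m : ℤ)| ≤ B * (x : ℤ) ^ d) →
      AlmostAll A B N ε (Icc 1 x) (fun m => P.eval (m : ℤ))) ∧
    (∃ A : ℕ, ∀ N H : ℕ, A ≤ H → H ≤ N → AlmostAll A B N ε ((Icc 1 H).filter Nat.Prime) (fun p => (p : ℤ))) ∧
    ∀ (h : ℕ) (C : ℝ), ∃ A : ℕ, ∀ N H x : ℕ, A ≤ H → H ≤ N → ∀ s : ℕ → ℤ, (∀ m ∈ Icc 1 x, |s m| ≤ H) →
      (energy h x s : ℝ) * H ≤ C * (x : ℝ) ^ (2 * h) → AlmostAll A B N ε (Icc 1 x) s := by
  classical
  refine ⟨fun f hf A => ?_, fun d hd => ?_, ?_, fun h C => ?_⟩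
  · have h1 : ∀ (j : ℕ) (χ : DirichletCharacter ℂ (j + 1)), ∃ N₀ : ℕ, χ ^ 2 = 1 → ∀ N : ℕ, N₀ ≤ N → (A : ℝ) ≤ dist2 f χ N := by
      intro j χ
      by_cases hχ : χ ^ 2 = 1
      · obtain ⟨N₀, h2⟩ := Filter.eventually_atTop.1 ((hf (j + 1) χ (by omega) hχ).eventually_ge_atTop (A : ℝ))
        exact ⟨N₀, fun _ => h2⟩
      · exact ⟨0, fun h => absurd h hχ⟩
    choose N₀ hN₀ using h1
    refine ⟨∑ j ∈ range A, ∑ χ : DirichletCharacter ℂ (j + 1), N₀ j χ, fun N hN q χ h2 h3 h4 => ?_⟩
    obtain ⟨j, rfl⟩ : ∃ j, q = j + 1 := ⟨q - 1, by omega⟩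
    refine hN₀ j χ h4 N (le_trans ?_ hN)
    have h5 := single_le_sum (f := fun χ => N₀ j χ) (fun _ _ => Nat.zero_le _) (mem_univ χ)
    have h6 := single_le_sum (f := fun j => ∑ χ : DirichletCharacter ℂ (j + 1), N₀ j χ) (fun _ _ => Nat.zero_le _)
      (mem_range.2 (by omega : j < A))
    exact h5.trans h6
  · obtain ⟨A, hA⟩ := Pool.Agent.Helper82K9.EL.polU B d hd ε hε
    refine ⟨A, fun N x hN hx hxN P hP hPl hPs f hf hF g hg a b ha hb => ?_⟩
    rw [number_eq, Nat.card_Icc, Nat.add_sub_cancel]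
    exact hA N hN f (mult_of hf) (far_of hF) x hx hxN P hP hPl hPs a b g ha hb hg
  · obtain ⟨A, hA⟩ := Pool.Agent.Helper82K9.EL.priR B ε hε
    refine ⟨A, fun N H hH hHN f hf hF g hg a b ha hb => ?_⟩
    rw [number_eq]
    exact hA N (hH.trans hHN) f (mult_of hf) (far_of hF) H hH hHN a b g ha hb hg
  · obtain ⟨A, hA⟩ := Pool.Agent.Helper82K9.EL.famR B ε hε h C
    refine ⟨A, fun N H x hH hHN s hs hen f hf hF g hg a b ha hb => ?_⟩
    rw [number_eq, Nat.card_Icc, Nat.add_sub_cancel]
    exact hA N (hH.trans hHN) f (mult_of hf) (far_of hF) H hH hHN x s hs hen a b g ha hb hg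

end Pool.Agent.Results.MP_0c9a68_nt.SparseShifts
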